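import Pool.Agent.Helper25_CN3.Stmts

/-!
Squad CN3: modules V_EVN (the lattice is even) and V_ROT (roots).
-/

noncomputable section

namespace Pool.Agent.H94

open Pool.Agent.H25Cong Pool.Agent.CON Pool.Agent.CN2 Pool.Agent.CN3

theorem symB_len {m : ℕ} {G : List (List ℤ)} (h : symB m G = true) : G.length = m := by
  simp only [symB, Bool.and_eq_true, decide_eq_true_eq] at h
  exact h.1.1.1

theorem symB_even {m : ℕ} {G : List (List ℤ)} (h : symB m G = true) (i : ℕ) (hi : i < m) :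
    (2 : ℤ) ∣ ent G i i := by
  simp only [symB, Bool.and_eq_true, decide_eq_true_eq, List.all_eq_true, List.mem_range] at h
  exact h.2 i hi

theorem v_evn (h1 : V_IP) (h2 : V_MEM) : V_EVN := by
  intro n a G hG
  have hint : ∀ x ∈ LL a, ∀ y ∈ LL a, ∃ k : ℤ, B x y = k := by
    intro x hx y hy
    obtain ⟨x', -, rfl⟩ := (h2 n a).2.1 x hx
    obtain ⟨y', -, rfl⟩ := (h2 n a).2.1 y hy
    exact ⟨gip G x' y', h1 n a G hG x' y'⟩
  refine ⟨⟨a, rfl⟩, hint, ?_⟩
  intro x hx
  induction hx using Submodule.span_induction with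
  | mem x h =>
    obtain ⟨i, rfl⟩ := h
    obtain ⟨k, hk⟩ := symB_even hG.sym i i.isLt
    refine ⟨k, ?_⟩
    rw [hG.gram, hk]
    push_cast
    ring
  | zero => exact ⟨0, by simp⟩
  | add x y hx hy ihx ihy =>
    obtain ⟨k, hk⟩ := ihx
    obtain ⟨l, hl⟩ := ihy
    obtain ⟨j, hj⟩ := hint x hx y hy
    refine ⟨k + l + j, ?_⟩
    rw [B_add_left, B_add_right, B_add_right, B_comm y x, hk, hl, hj]
    push_cast
    ring
  | smul c x hx ih =>
    obtain ⟨k, hk⟩ := ih
    refine ⟨c * c * k, ?_⟩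
    rw [← Int.cast_smul_eq_zsmul ℝ, B_smul_left, B_smul_right, hk]
    push_cast
    ring

theorem v_rot (h1 : V_IP) (h2 : V_MEM) : V_ROT := by
  intro n a G r hG hr
  simp only [rootB, Bool.and_eq_true, decide_eq_true_eq, List.all_eq_true, List.mem_range] at hr
  obtain ⟨⟨hlen, hpos⟩, hdiv⟩ := hr
  have hGl : G.length = n + 1 := symB_len hG.sym
  rw [hGl] at hlen hdiv
  have hrr : B (lv a r) (lv a r) = ((gip G r r : ℤ) : ℝ) := h1 n a G hG r r
  have hposR : (0 : ℝ) < B (lv a r) (lv a r) := by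
    rw [hrr]
    exact_mod_cast hpos
  have hne : B (lv a r) (lv a r) ≠ 0 := ne_of_gt hposR
  have hk : ∀ x ∈ LL a, ∃ k : ℤ, 2 * B x (lv a r) = k * B (lv a r) (lv a r) := by
    intro x hx
    induction hx using Submodule.span_induction with
    | mem x h =>
      obtain ⟨i, rfl⟩ := h
      obtain ⟨k, hk⟩ := hdiv i i.isLt
      refine ⟨k, ?_⟩
      have h3 := (h2 n a).2.2.1 i
      have h4 : av a i = a i := by
        rw [av, dif_pos i.isLt]
      rw [h4] at h3
      rw [← h3, B_comm, h1 n a G hG r (uv (n + 1) i), hrr]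
      have : ((2 * gip G r (uv (n + 1) i) : ℤ) : ℝ) = ((gip G r r * k : ℤ) : ℝ) := by
        rw [hk]
      push_cast at this
      rw [this]
      ring
    | zero => exact ⟨0, by simp⟩
    | add x y hx hy ihx ihy =>
      obtain ⟨k, hk⟩ := ihx
      obtain ⟨l, hl⟩ := ihy
      refine ⟨k + l, ?_⟩
      rw [B_add_left, mul_add, hk, hl]
      push_cast
      ring
    | smul c x hx ih =>
      obtain ⟨k, hk⟩ := ih
      refine ⟨c * k, ?_⟩
      rw [← Int.cast_smul_eq_zsmul ℝ, B_smul_left]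
      push_cast
      linear_combination (c : ℝ) * hk
  have hmem : ∀ x ∈ LL a, S (lv a r) x ∈ LL a := by
    intro x hx
    obtain ⟨k, hk⟩ := hk x hx
    rw [S_apply, hk, mul_div_assoc, div_self hne, mul_one, Int.cast_smul_eq_zsmul ℝ]
    exact (LL a).sub_mem hx ((LL a).smul_mem k ((h2 n a).1 r))
  refine ⟨hposR, Subgroup.subset_closure ⟨⟨lv a r, hposR, fun x => S_apply _ x⟩, hmem⟩, hmem, ?_⟩
  intro x hxl
  have hl : (rfl1 G r x).length = n + 1 := by
    rw [rfl1, List.length_zipWith, hxl, hlen, min_self]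
  refine ⟨hl, ?_⟩
  obtain ⟨k, hkx⟩ := hk (lv a x) ((h2 n a).1 x)
  have hkz : 2 * gip G x r = k * gip G r r := by
    have h5 : ((2 * gip G x r : ℤ) : ℝ) = ((k * gip G r r : ℤ) : ℝ) := by
      push_cast
      rw [← h1 n a G hG x r, ← hrr]
      exact hkx
    exact_mod_cast h5
  have hq : 2 * gip G x r / gip G r r = k := by
    rw [hkz]
    exact Int.mul_ediv_cancel k (ne_of_gt hpos)
  rw [S_apply, hkx, mul_div_assoc, div_self hne, mul_one]
  simp only [lv]
  rw [Finset.smul_sum, ← Finset.sum_sub_distrib]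
  refine Finset.sum_congr rfl fun i _ => ?_
  have hi1 : (i : ℕ) < x.length := by rw [hxl]; exact i.isLt
  have hi2 : (i : ℕ) < r.length := by rw [hlen]; exact i.isLt
  have hi3 : (i : ℕ) < (rfl1 G r x).length := by rw [hl]; exact i.isLt
  have e1 : (rfl1 G r x).getD i 0 = x.getD i 0 - k * r.getD i 0 := by
    rw [List.getD_eq_getElem _ _ hi3, List.getD_eq_getElem _ _ hi1, List.getD_eq_getElem _ _ hi2]
    simp only [rfl1, List.getElem_zipWith, hq]
  rw [e1]
  push_cast
  rw [sub_smul, mul_smul]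

end Pool.Agent.H94

end
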